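import Pool.Agent.H18.XZ.TB

/-!
# Row CNC of exz_modules (MP_0f8dca_lc): the test function is rarely large
-/

set_option autoImplicit false

namespace Pool.Agent.H12.XZ

open Finset Pool.Agent.H6.NB Pool.Agent.H70.OQ Pool.Agent.H70.EH Pool.Agent.H70.EI Pool.Agent.H78.XQ
open Pool.Agent.H66.IQ Pool.Agent.H18.XZ
open Pool.Agent.H66.AV (Wn tbl zer LitT v0 v1 s0 s1)

theorem cnc_val (k : ℕ) (G : Prot k) (O : List Bool → Bool) : 0 ≤ G.val O ∧ G.val O ≤ 1 := by
  induction G with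
  | test T =>
    unfold Prot.val
    split_ifs <;> constructor <;> norm_num
  | coin l r hl hr =>
    unfold Prot.val
    constructor <;> linarith [hl.1, hl.2, hr.1, hr.2]
  | say l r hl hr =>
    unfold Prot.val
    exact ⟨le_max_of_le_left hl.1, max_le hl.2 hr.2⟩

theorem cnc_bern {x : ℝ} (h0 : 0 ≤ x) (h1 : x ≤ 1) {B : ℕ} (hB : 1 ≤ B) :
    x * (1 - x) ^ B ≤ 1 / B := by
  have hB0 : (0 : ℝ) < B := by exact_mod_cast hB
  have h2 : 1 + (B : ℝ) * x ≤ (1 + x) ^ B := one_add_mul_le_pow (by linarith) B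
  have h3 : (1 - x) ^ B * (1 + x) ^ B ≤ 1 := by
    rw [← mul_pow]
    refine pow_le_one₀ (mul_nonneg (by linarith) (by linarith)) ?_
    nlinarith
  have h4 : 0 ≤ (1 - x) ^ B := pow_nonneg (by linarith) B
  have h5 : (1 - x) ^ B * (1 + (B : ℝ) * x) ≤ 1 := (mul_le_mul_of_nonneg_left h2 h4).trans h3
  rw [le_div_iff₀ hB0]
  nlinarith

open Classical in
theorem pf_CNC (hBLF : T_BLF) (hBLK : T_BLK) (hCRD : T_CRD) (hNUB : T_NUB) : T_CNC := by
  intro k
  obtain ⟨n₀, hn₀⟩ := hNUB k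
  refine ⟨n₀, fun n hn A C B hB hA hC Q hQ => ?_⟩
  obtain ⟨m, hm⟩ : ∃ m : ℕ, m = 2 ^ (n / 6) := ⟨_, rfl⟩
  obtain ⟨w, hw⟩ : ∃ w : ℕ, w = 8 * ((k + 3) * (m + 1)) := ⟨_, rfl⟩
  obtain ⟨q, hq⟩ : ∃ q : ℝ, q = 1 / (64 * w) := ⟨_, rfl⟩
  obtain ⟨a₁, ha₁⟩ : ∃ a₁ : ℕ, a₁ = n / 9 := ⟨_, rfl⟩
  obtain ⟨a₂, ha₂⟩ : ∃ a₂ : ℕ, a₂ = 5 * n / 8 - n / 9 := ⟨_, rfl⟩
  obtain ⟨ε, hε⟩ : ∃ ε : ℝ, ε = (1 / 2) ^ (n / 36) := ⟨_, rfl⟩
  obtain ⟨h1, h2, h3, h4⟩ := hn₀ n hn m w a₁ a₂ q hm hw hq ha₁ ha₂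
  rw [← hε] at h2 h3 h4 ⊢
  have hw1 : 1 ≤ w := by
    rw [hw]
    have : 0 < (k + 3) * (m + 1) := by positivity
    omega
  have hmw : m + 1 ≤ w := by
    rw [hw]
    have : 1 * (m + 1) ≤ (k + 3) * (m + 1) := Nat.mul_le_mul_right _ (by omega)
    omega
  have hw0 : (0 : ℝ) < w := by exact_mod_cast hw1
  have hq0 : 0 < q := by rw [hq]; positivity
  have hq1 : 64 * (w : ℝ) * q ≤ 1 := by
    rw [hq, mul_one_div_cancel (by positivity)]
  have hε0 : 0 < ε := by rw [hε]; positivity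
  have hε1 : ε ≤ 1 := by rw [hε]; exact pow_le_one₀ (by norm_num) (by norm_num)
  have hcard : Fintype.card (Fin (2 ^ a₁) × Fin (2 ^ a₂)) = 2 ^ (a₁ + a₂) := by
    rw [Fintype.card_prod, Fintype.card_fin, Fintype.card_fin, pow_add]
  -- the blocks
  have hcc : Fintype.card (Fin (2 ^ (n - (a₁ + a₂))) × (Fin (2 ^ a₁) × Fin (2 ^ a₂))) =
      Fintype.card (Fin n → Bool) := by
    rw [Fintype.card_prod, hcard, Fintype.card_fin, Fintype.card_fun, Fintype.card_bool,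
      Fintype.card_fin, ← pow_add]
    congr 1
    omega
  obtain ⟨φ⟩ : Nonempty (Fin (2 ^ (n - (a₁ + a₂))) × (Fin (2 ^ a₁) × Fin (2 ^ a₂)) ≃
      (Fin n → Bool)) := Fintype.card_eq.1 hcc
  obtain ⟨δ, hδ⟩ : ∃ δ : ℝ, δ = (((2 ^ a₁ * 2 ^ a₂ : ℕ) : ℝ) * 2 ^ (2 * m) *
        errT ((Fin (2 ^ a₁) × Fin (2 ^ a₂)) × (Fin n → Bool)) (Ys n) (2 ^ (m + 1)) w
          (2 ^ (n - (a₁ + a₂))) q k +
      ((2 ^ a₁ * 2 ^ a₂ : ℕ) : ℝ) * ((2 ^ (n - n / 2) : ℕ) : ℝ) * (1 - q) ^ 2 ^ (n / 2) +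
      12 / ε * Real.exp (-(ε ^ 2 * ((2 ^ a₁ : ℕ) : ℝ) / 8))) := ⟨_, rfl⟩
  rw [← hδ] at h4
  have hblk : ∀ β : Fin (2 ^ (n - (a₁ + a₂))),
      ((univ.filter fun z : Wn n k => Bdb A Q ε (fun r => φ (β, r)) z).card : ℝ) ≤
        Fintype.card (Wn n k) * δ := by
    intro β
    have hinj : Function.Injective fun r : Fin (2 ^ a₁) × Fin (2 ^ a₂) => φ (β, r) := by
      intro r r' h
      exact (Prod.mk.inj (φ.injective h)).2
    refine hBLK _ n k _ hinj (fun z => Bdb A Q ε (fun r => φ (β, r)) z) δ fun z => ?_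
    have h5 := hBLF (Fin (2 ^ a₁)) (Fin (2 ^ a₂)) n k m w (2 ^ (n - (a₁ + a₂))) (2 ^ (n / 2))
      (2 ^ (n - n / 2)) q ε _ hinj hw1 hmw hq0 hq1 Nat.one_le_two_pow Nat.one_le_two_pow
      (fun i _ => hCRD _ n (a₁ + a₂) h1 hcard i) (by
        rw [← pow_add]
        exact Nat.pow_le_pow_right (by norm_num) (by omega)) hε0 hε1 h2 (by
          rw [Fintype.card_fin, Fintype.card_fin]
          exact h3) A (by
          intro x
          rw [hm]
          exact hA x) Q hQ z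
    rw [Fintype.card_prod (Fin (2 ^ a₁)) (Fin (2 ^ a₂)), Fintype.card_fin, Fintype.card_fin] at h5
    rw [hδ]
    exact h5
  -- outside of the bad blocks
  have hgood : ∀ z : Wn n k, (∀ β, ¬ Bdb A Q ε (fun r => φ (β, r)) z) →
      |s0 A Q z| ≤ ε * 2 ^ n ∧ s1 A C Q z ≤ 2 ^ n * (1 / B + 2 * ε) := by
    intro z hz
    have hz1 : ∀ β, |∑ r : Fin (2 ^ a₁) × Fin (2 ^ a₂), Pool.Agent.H66.AV.sg (z (φ (β, r))).1 *
        (v0 A Q z (φ (β, r)) - 1 / 2)| ≤ ε * (2 : ℝ) ^ (a₁ + a₂) := by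
      intro β
      have := hz β
      unfold Bdb at this
      push Not at this
      rw [hcard] at this
      push_cast at this
      exact this.1.le
    have hz2 : ∀ β, (∑ r : Fin (2 ^ a₁) × Fin (2 ^ a₂), if (z (φ (β, r))).1 then
        max (v0 A Q z (φ (β, r)) - v1 A Q z (φ (β, r))) 0 else 0) ≤ ε * (2 : ℝ) ^ (a₁ + a₂) := by
      intro β
      have := hz β
      unfold Bdb at this
      push Not at this
      rw [hcard] at this
      push_cast at this
      exact this.2.le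
    have hsum : ∀ f : (Fin n → Bool) → ℝ, ∑ x, f x = ∑ β, ∑ r, f (φ (β, r)) := by
      intro f
      rw [← φ.sum_comp f, Fintype.sum_prod_type]
    have hp : ((2 : ℝ) ^ (n - (a₁ + a₂))) * (ε * (2 : ℝ) ^ (a₁ + a₂)) = ε * 2 ^ n := by
      have : (2 : ℝ) ^ n = (2 : ℝ) ^ (n - (a₁ + a₂)) * (2 : ℝ) ^ (a₁ + a₂) := by
        rw [← pow_add]
        congr 1
        omega
      rw [this]
      ring
    constructor
    · unfold s0
      rw [hsum]
      refine (Finset.abs_sum_le_sum_abs _ _).trans ?_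
      refine (Finset.sum_le_sum fun β _ => hz1 β).trans ?_
      rw [Finset.sum_const, Finset.card_univ, Fintype.card_fin, nsmul_eq_mul]
      push_cast
      exact hp.le
    · have h6 : s1 A C Q z ≤ ∑ x : Fin n → Bool, (1 / (B : ℝ) +
          if (z x).1 then max (v0 A Q z x - v1 A Q z x) 0 else 0) := by
        unfold s1
        refine Finset.sum_le_sum fun x _ => ?_
        have hB0 : (0 : ℝ) < B := by exact_mod_cast hB
        have hBp : (0 : ℝ) ≤ 1 / B := by positivity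
        by_cases hx : (z x).1 = true
        · rw [if_pos hx, if_pos hx]
          have e1 : 1 - v1 C Q z x = (1 - v1 A Q z x) ^ B := hC x _
          have hv0 := cnc_val k (A x) (Q (tbl (zer z x)))
          have hv1 := cnc_val k (A x) (Q (tbl z))
          have ev1 : v1 A Q z x = (A x).val (Q (tbl z)) := rfl
          rw [← ev1] at hv1
          rw [e1]
          have h7 : 0 ≤ (1 - v1 A Q z x) ^ B := pow_nonneg (by linarith [hv1.2]) B
          have h8 : (1 - v1 A Q z x) ^ B ≤ 1 :=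
            pow_le_one₀ (by linarith [hv1.2]) (by linarith [hv1.1])
          have h9 := cnc_bern hv1.1 hv1.2 hB
          have h10 : v0 A Q z x ≤ v1 A Q z x + max (v0 A Q z x - v1 A Q z x) 0 := by
            linarith [le_max_left (v0 A Q z x - v1 A Q z x) 0]
          have h11 : 0 ≤ max (v0 A Q z x - v1 A Q z x) 0 := le_max_right _ _
          calc v0 A Q z x * (1 - v1 A Q z x) ^ B ≤
              (v1 A Q z x + max (v0 A Q z x - v1 A Q z x) 0) * (1 - v1 A Q z x) ^ B :=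
                mul_le_mul_of_nonneg_right h10 h7
            _ = v1 A Q z x * (1 - v1 A Q z x) ^ B +
                max (v0 A Q z x - v1 A Q z x) 0 * (1 - v1 A Q z x) ^ B := by ring
            _ ≤ 1 / B + max (v0 A Q z x - v1 A Q z x) 0 := by
                refine add_le_add h9 ?_
                calc max (v0 A Q z x - v1 A Q z x) 0 * (1 - v1 A Q z x) ^ B ≤
                    max (v0 A Q z x - v1 A Q z x) 0 * 1 := mul_le_mul_of_nonneg_left h8 h11
                  _ = _ := mul_one _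
        · rw [if_neg hx, if_neg hx, add_zero]
          exact hBp
      refine h6.trans ?_
      rw [Finset.sum_add_distrib, Finset.sum_const, Finset.card_univ, Fintype.card_fun,
        Fintype.card_bool, Fintype.card_fin, nsmul_eq_mul, hsum]
      have h7 : (∑ β, ∑ r : Fin (2 ^ a₁) × Fin (2 ^ a₂), if (z (φ (β, r))).1 then
          max (v0 A Q z (φ (β, r)) - v1 A Q z (φ (β, r))) 0 else 0) ≤ ε * 2 ^ n := by
        refine (Finset.sum_le_sum fun β _ => hz2 β).trans ?_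
        rw [Finset.sum_const, Finset.card_univ, Fintype.card_fin, nsmul_eq_mul]
        push_cast
        exact hp.le
      have h8 : 0 ≤ ε * 2 ^ n := by positivity
      push_cast
      calc (2 : ℝ) ^ n * (1 / B) + _ ≤ (2 : ℝ) ^ n * (1 / B) + ε * 2 ^ n := by
            gcongr
        _ ≤ _ := by
            rw [mul_add]
            nlinarith
  -- the union
  have hsub : (univ.filter fun z : Wn n k => ¬ (|s0 A Q z| ≤ ε * 2 ^ n ∧
      s1 A C Q z ≤ 2 ^ n * (1 / B + 2 * ε))) ⊆ univ.biUnion fun β =>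
      univ.filter fun z : Wn n k => Bdb A Q ε (fun r => φ (β, r)) z := by
    intro z hz
    rw [Finset.mem_filter] at hz
    rw [Finset.mem_biUnion]
    by_contra hcon
    push Not at hcon
    refine hz.2 (hgood z fun β hβ => hcon β (Finset.mem_univ _) ?_)
    rw [Finset.mem_filter]
    exact ⟨Finset.mem_univ _, hβ⟩
  have hδ0 : 0 ≤ Fintype.card (Wn n k) * δ :=
    le_trans (Nat.cast_nonneg _) (hblk ⟨0, by positivity⟩)
  calc ((univ.filter fun z : Wn n k => ¬ (|s0 A Q z| ≤ ε * 2 ^ n ∧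
      s1 A C Q z ≤ 2 ^ n * (1 / B + 2 * ε))).card : ℝ) ≤
      ((∑ β, (univ.filter fun z : Wn n k =>
        Bdb A Q ε (fun r : Fin (2 ^ a₁) × Fin (2 ^ a₂) => φ (β, r)) z).card : ℕ) : ℝ) := by
        exact_mod_cast (Finset.card_le_card hsub).trans Finset.card_biUnion_le
    _ ≤ ∑ β : Fin (2 ^ (n - (a₁ + a₂))), Fintype.card (Wn n k) * δ := by
        push_cast
        exact Finset.sum_le_sum fun β _ => hblk β
    _ = (2 : ℝ) ^ (n - (a₁ + a₂)) * (Fintype.card (Wn n k) * δ) := by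
        rw [Finset.sum_const, Finset.card_univ, Fintype.card_fin, nsmul_eq_mul]
        push_cast
        ring
    _ ≤ (2 : ℝ) ^ n * (Fintype.card (Wn n k) * δ) := by
        refine mul_le_mul_of_nonneg_right ?_ hδ0
        exact pow_le_pow_right₀ (by norm_num) (by omega)
    _ = Fintype.card (Wn n k) * (2 ^ n * δ) := by ring
    _ ≤ _ := mul_le_mul_of_nonneg_left h4 (Nat.cast_nonneg _)

end Pool.Agent.H12.XZ
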